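import Mathlib

/-! Project PB: definitions (the concrete step of the tower of cyclic shifts). -/

set_option autoImplicit false
set_option linter.unusedSectionVars false
open MeasureTheory Filter Topology
open scoped InnerProductSpace BoundedContinuousFunction

namespace Pool.Agent.W763.PB

noncomputable section

/-- `κ(x)`, the correlation of the truncated geometric profile at relative lag `x`. -/
def kap (k x : ℝ) : ℝ := k ^ (-(x / 2)) * (1 - k ^ (-(2 - x))) / (1 - k ^ (-2 : ℝ))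

/-- `p(x)` : relative mass of the profile on `[0, R-n)`, shifted. -/
def pp (k x : ℝ) : ℝ := (1 - k ^ (-(2 - x))) / (1 - k ^ (-2 : ℝ))

/-- `q = k^{-1/(2m)}` -/
def qq (k : ℝ) (m : ℕ) : ℝ := k ^ (-(1 / (2 * (m : ℝ))))

/-- normalising constant, `c² = (1-q²)/(1-k⁻²)` -/
def cc (k : ℝ) (m : ℕ) : ℝ := Real.sqrt ((1 - (qq k m) ^ 2) / (1 - k ^ (-2 : ℝ)))

/-- the profile `Ω(t) = c q^t` for `0 ≤ t < 2m`, `0` elsewhere on `ZMod (b*m)` -/
def Om (k : ℝ) (b m : ℕ) (t : ZMod (b * m)) : ℝ :=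
  if t.val < 2 * m then cc k m * (qq k m) ^ t.val else 0

/-- the weight `ω̃`, equal to `k` on `[0,2m)` and to `k^{(bm-t)/((b-2)m)}` on `[2m, bm)` -/
def ww (k : ℝ) (b m : ℕ) (t : ZMod (b * m)) : ℝ :=
  if t.val < 2 * m then k else k ^ ((((b * m : ℕ) : ℝ) - (t.val : ℝ)) / (((b : ℝ) - 2) * (m : ℝ)))

/-- the factor `k^{min(1, n/((b-2)m))}` -/
def kh (k : ℝ) (b m n : ℕ) : ℝ := k ^ (min 1 ((n : ℝ) / (((b : ℝ) - 2) * (m : ℝ))))

/-- the next space -/
abbrev Sp (b m : ℕ) (H : Type) : Type := PiLp 2 (fun _ : ZMod (b * m) => H)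

section ops

variable (k : ℝ) (b m : ℕ) [NeZero b] [NeZero m]
variable {H : Type} [NormedAddCommGroup H] [InnerProductSpace ℂ H] [CompleteSpace H]

/-- the shift `(U'F)(t) = F(t+1)` -/
def Ush : Sp b m H ≃ₗᵢ[ℂ] Sp b m H :=
  LinearIsometryEquiv.piLpCongrLeft 2 ℂ H (Equiv.subRight (1 : ZMod (b * m)))

/-- `(Jφ)(t) = Ω(t) U^t φ` -/
def Jop (U : H ≃ₗᵢ[ℂ] H) : H →L[ℂ] Sp b m H :=
  ((PiLp.continuousLinearEquiv 2 ℂ (fun _ : ZMod (b * m) => H)).symm :
      (ZMod (b * m) → H) →L[ℂ] Sp b m H) ∘L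
    ContinuousLinearMap.pi (fun t : ZMod (b * m) =>
      ((Om k b m t : ℝ) : ℂ) • (((U ^ t.val : H ≃ₗᵢ[ℂ] H) : H ≃L[ℂ] H) : H →L[ℂ] H))

/-- multiplication by a real function on `ZMod (b*m)` -/
def Dg (f : ZMod (b * m) → ℝ) : Sp b m H →L[ℂ] Sp b m H :=
  ((PiLp.continuousLinearEquiv 2 ℂ (fun _ : ZMod (b * m) => H)).symm :
      (ZMod (b * m) → H) →L[ℂ] Sp b m H) ∘L
    ContinuousLinearMap.pi (fun t : ZMod (b * m) => ((f t : ℝ) : ℂ) • PiLp.proj 2 (fun _ => H) t)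

/-- indicator of `[0,2m)` -/
def ee (b m : ℕ) (t : ZMod (b * m)) : ℝ := if t.val < 2 * m then 1 else 0

/-- `√ω` on `[2m,bm)`, `0` on `[0,2m)` -/
def sw (k : ℝ) (b m : ℕ) (t : ZMod (b * m)) : ℝ :=
  if t.val < 2 * m then 0 else Real.sqrt (ww k b m t)

/-- the new weight operator `D'` -/
def Dop (U : H ≃ₗᵢ[ℂ] H) (D : H →L[ℂ] H) : Sp b m H →L[ℂ] Sp b m H :=
  (Jop k b m U) ∘L D ∘L ContinuousLinearMap.adjoint (Jop k b m U)
    + ((Real.sqrt k : ℝ) : ℂ) • (Dg b m (ee b m) -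
        (Jop k b m U) ∘L ContinuousLinearMap.adjoint (Jop k b m U))
    + Dg b m (sw k b m)

end ops

/-! ### the basic evaluation rules -/

section basic

variable (k : ℝ) (b m : ℕ) [NeZero b] [NeZero m]
variable {H : Type} [NormedAddCommGroup H] [InnerProductSpace ℂ H] [CompleteSpace H]

omit [CompleteSpace H] in
@[simp] theorem Ush_apply (F : Sp b m H) (t : ZMod (b * m)) : (Ush b m F) t = F (t + 1) := by
  simp [Ush, LinearIsometryEquiv.piLpCongrLeft_apply, Equiv.piCongrLeft']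

omit [CompleteSpace H] in
theorem Ush_pow_apply (n : ℕ) (F : Sp b m H) (t : ZMod (b * m)) :
    ((Ush b m (H := H) ^ n) F) t = F (t + n) := by
  induction n generalizing F t with
  | zero => simp
  | succ n ih =>
    rw [pow_succ]
    show ((Ush b m (H := H) ^ n) (Ush b m F)) t = _
    rw [ih, Ush_apply]
    push_cast
    rw [add_assoc]

omit [CompleteSpace H] in
theorem Ush_symm_apply (F : Sp b m H) (t : ZMod (b * m)) : ((Ush b m).symm F) t = F (t - 1) := by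
  have h := Ush_apply b m ((Ush b m).symm F) (t - 1)
  simp at h
  exact h.symm

omit [CompleteSpace H] in
@[simp] theorem Jop_apply (U : H ≃ₗᵢ[ℂ] H) (x : H) (t : ZMod (b * m)) :
    (Jop k b m U x) t = ((Om k b m t : ℝ) : ℂ) • (U ^ t.val) x := by
  simp [Jop]

omit [CompleteSpace H] in
@[simp] theorem Dg_apply (f : ZMod (b * m) → ℝ) (F : Sp b m H) (t : ZMod (b * m)) :
    (Dg b m f F) t = ((f t : ℝ) : ℂ) • F t := by
  simp [Dg]

theorem Dop_apply (U : H ≃ₗᵢ[ℂ] H) (D : H →L[ℂ] H) (F : Sp b m H) :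
    Dop k b m U D F = Jop k b m U (D (ContinuousLinearMap.adjoint (Jop k b m U) F))
      + ((Real.sqrt k : ℝ) : ℂ) • (Dg b m (ee b m) F -
        Jop k b m U (ContinuousLinearMap.adjoint (Jop k b m U) F))
      + Dg b m (sw k b m) F := by
  simp [Dop]

end basic

end

end Pool.Agent.W763.PB
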