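import Pool.Agent.W763.PB.Defs

/-! Project PB: statements of the parts. -/

set_option autoImplicit false
set_option linter.unusedSectionVars false
open MeasureTheory Filter Topology
open scoped InnerProductSpace BoundedContinuousFunction

namespace Pool.Agent.W763.PB

noncomputable section

/-! ## A. real lemmas -/

/-- R1: elementary facts on `κ`, `p`. -/
def S_R1 : Prop := ∀ k : ℝ, 2 ≤ k →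
  (∀ x : ℝ, 0 ≤ x → x ≤ 1 → 0 < kap k x ∧ kap k x ≤ 1 ∧ (kap k x) ^ 2 ≤ k ^ (-x) ∧
      1 - kap k x ≤ k * x ∧ kap k x = k ^ (-(x / 2)) * pp k x ∧
      k * (k ^ (-x) * pp k x - (kap k x) ^ 2) ≤ 1 ∧ 0 ≤ pp k x ∧ pp k x ≤ 1) ∧
  kap k 1 ^ 2 ≤ 1 / k

/-- R0: elementary facts on `q`. -/
def S_R0 : Prop := ∀ k : ℝ, 2 ≤ k →
  (∀ m : ℕ, 1 ≤ m → 0 < qq k m ∧ qq k m < 1 ∧ (∀ n : ℕ, (qq k m) ^ n = k ^ (-((n : ℝ) / (2 * (m : ℝ))))) ∧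
      (qq k m) ^ (2 * m) = k⁻¹ ∧ (qq k m) ^ (4 * m) = k ^ (-2 : ℝ))

/-- Z0: sums over `ZMod` as sums over `range`. -/
def S_Z0 : Prop := ∀ (N : ℕ) [NeZero N] (f : ℕ → ℝ), ∑ t : ZMod N, f t.val = ∑ j ∈ Finset.range N, f j

/-- R2: consequences of `16 k² ≤ b`. -/
def S_R2 : Prop := ∀ (k : ℝ) (b : ℕ), 2 ≤ k → 16 * k ^ 2 ≤ b →
  64 ≤ (b : ℝ) ∧ k ^ (1 / ((b : ℝ) - 2)) ≤ Real.sqrt 2 ∧ k ^ (2 / ((b : ℝ) - 2)) ≤ 2 ∧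
  (∀ S : ℕ, ∑ s ∈ Finset.range S, k * (1 / (b : ℝ)) ^ (s + 1) ≤ 1 / 2) ∧
  (∀ S : ℕ, ∑ s ∈ Finset.range S, k * Real.sqrt (2 * (1 / (b : ℝ)) ^ s * (1 / (b : ℝ))) ≤ 1)

/-- R3: product lower bound: `∏_{s<S} κ(b^{-(s+1)}) ≥ 1/2`. -/
def S_R3 : Prop := ∀ (k : ℝ) (b : ℕ), 2 ≤ k → 16 * k ^ 2 ≤ b →
  ∀ S : ℕ, 1 / 2 ≤ ∏ s ∈ Finset.range S, kap k ((1 / (b : ℝ)) ^ (s + 1))

/-- Z1: `∑ Ω² = 1`. -/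
def S_Z1 : Prop := ∀ (k : ℝ) (b m : ℕ) [NeZero b] [NeZero m], 2 ≤ k → 16 * k ^ 2 ≤ b →
  ∑ t : ZMod (b * m), (Om k b m t) ^ 2 = 1

/-- Z2: `∑ Ω(t) Ω(t+n) = κ(n/m)` and no wrap-around on the support. -/
def S_Z2 : Prop := ∀ (k : ℝ) (b m : ℕ) [NeZero b] [NeZero m], 2 ≤ k → 16 * k ^ 2 ≤ b →
  ∀ n : ℕ, n ≤ m →
    ∑ t : ZMod (b * m), Om k b m t * Om k b m (t + n) = kap k ((n : ℝ) / m) ∧
    (∀ t : ZMod (b * m), t.val < 2 * m → (t + (n : ZMod (b * m))).val = t.val + n)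

/-- Z3: the mass of the shifted profile on `[0,2m)`. -/
def S_Z3 : Prop := ∀ (k : ℝ) (b m : ℕ) [NeZero b] [NeZero m], 2 ≤ k → 16 * k ^ 2 ≤ b →
  ∀ n : ℕ, n ≤ m →
    ∑ t : ZMod (b * m), (ee b m t) ^ 2 * (Om k b m (t + n)) ^ 2 = k ^ (-((n : ℝ) / m)) * pp k ((n : ℝ) / m)

/-- Z4: total weight of the shifted profile for `m ≤ n < bm`. -/
def S_Z4 : Prop := ∀ (k : ℝ) (b m : ℕ) [NeZero b] [NeZero m], 2 ≤ k → 16 * k ^ 2 ≤ b →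
  ∀ n : ℕ, m ≤ n → n < b * m →
    ∑ t : ZMod (b * m), ww k b m t * (Om k b m (t + n)) ^ 2 ≤ 1 + kh k b m n

/-- Z5: pointwise growth of the weight. -/
def S_Z5 : Prop := ∀ (k : ℝ) (b m : ℕ) [NeZero b] [NeZero m], 2 ≤ k → 16 * k ^ 2 ≤ b →
  (∀ n : ℕ, ∀ t : ZMod (b * m), ww k b m t ≤ kh k b m n * ww k b m (t + n)) ∧
  (∀ t : ZMod (b * m), 1 ≤ ww k b m t ∧ ww k b m t ≤ k) ∧ (∀ n : ℕ, 1 ≤ kh k b m n ∧ kh k b m n ≤ k) ∧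
  (∀ n : ℕ, n ≤ m → kh k b m n ≤ 2)

/-- Z6: weight of the shifted profile on `[2m,bm)`, for `n ≤ m`. -/
def S_Z6 : Prop := ∀ (k : ℝ) (b m : ℕ) [NeZero b] [NeZero m], 2 ≤ k → 16 * k ^ 2 ≤ b →
  ∀ n : ℕ, n ≤ m → ∑ t : ZMod (b * m), (sw k b m t) ^ 2 * (Om k b m (t + n)) ^ 2 ≤ 2

/-- Z7: for the blow-up, `n = 1` backwards: at every `t` with `Ω(t-1) ≠ 0` the weight `ω̃` is `k`. -/
def S_Z7 : Prop := ∀ (k : ℝ) (b m : ℕ) [NeZero b] [NeZero m], 2 ≤ k → 16 * k ^ 2 ≤ b →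
  ∀ t : ZMod (b * m), Om k b m (t - 1) ≠ 0 → ww k b m t = k

/-! ## B. the step -/

/-- the properties of the step, abstractly -/
structure StepP (k : ℝ) (b m : ℕ) {H H' : Type} [NormedAddCommGroup H] [InnerProductSpace ℂ H]
    [CompleteSpace H] [NormedAddCommGroup H'] [InnerProductSpace ℂ H'] [CompleteSpace H']
    (U : H ≃ₗᵢ[ℂ] H) (D : H →L[ℂ] H) (U' : H' ≃ₗᵢ[ℂ] H') (D' : H' →L[ℂ] H') (J : H →ₗᵢ[ℂ] H') :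
    Prop where
  per : U' ^ (b * m) = 1
  sa : ∀ x y, ⟪D' x, y⟫_ℂ = ⟪x, D' y⟫_ℂ
  lo : ∀ F, ‖F‖ ≤ ‖D' F‖
  up : ∀ F, ‖D' F‖ ≤ Real.sqrt k * ‖F‖
  com : ∀ x, D' (J x) = J (D x)
  cmp : ∀ n : ℕ, n ≤ m → ∀ x y, ⟪J x, (U' ^ n) (J y)⟫_ℂ = ((kap k ((n : ℝ) / m) : ℝ) : ℂ) * ⟪x, (U ^ n) y⟫_ℂ
  r1 : ∀ n : ℕ, m ≤ n → n < b * m → ∀ F, ‖D' ((U' ^ n) F)‖ ^ 2 ≤ 3 * kh k b m n * ‖D' F‖ ^ 2
  r2 : ∀ n : ℕ, n < m → ∀ c₁ : ℝ, k ^ (-((n : ℝ) / m)) * c₁ ≤ 6 →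
    (∀ x, ‖D ((U ^ n) x)‖ ^ 2 ≤ c₁ * ‖D x‖ ^ 2) → ∀ F, ‖D' ((U' ^ n) F)‖ ^ 2 ≤ 11 * ‖D' F‖ ^ 2
  r3 : ∀ n : ℕ, n < m → ∀ g : ℝ, Real.sqrt 2 ≤ g → (∀ x, ‖D ((U ^ n) x)‖ ≤ g * ‖D x‖) →
    ∀ F, ‖D' ((U' ^ n) F)‖ ≤ (g + k * Real.sqrt (2 * ((n : ℝ) / m))) * ‖D' F‖
  blow : m = 1 → ∀ x, (k - 1) * ‖x‖ ^ 2 ≤ ‖D' (U'.symm (J x))‖ ^ 2

/-- hypotheses on a level -/
structure LevP (k : ℝ) (m : ℕ) {H : Type} [NormedAddCommGroup H] [InnerProductSpace ℂ H]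
    [CompleteSpace H] (U : H ≃ₗᵢ[ℂ] H) (D : H →L[ℂ] H) : Prop where
  per : U ^ m = 1
  sa : ∀ x y, ⟪D x, y⟫_ℂ = ⟪x, D y⟫_ℂ
  lo : ∀ F, ‖F‖ ≤ ‖D F‖
  up : ∀ F, ‖D F‖ ≤ Real.sqrt k * ‖F‖

/-- J1: `J` is isometric, `J†J = 1`. -/
def S_J1 : Prop := ∀ (k : ℝ) (b m : ℕ) [NeZero b] [NeZero m], 2 ≤ k → 16 * k ^ 2 ≤ b →
  ∀ (H : Type) [NormedAddCommGroup H] [InnerProductSpace ℂ H] [CompleteSpace H] (U : H ≃ₗᵢ[ℂ] H),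
    (∀ x, ‖Jop k b m U x‖ = ‖x‖) ∧
    (∀ x, ContinuousLinearMap.adjoint (Jop k b m U) (Jop k b m U x) = x) ∧
    (∀ F, ‖Jop k b m U (ContinuousLinearMap.adjoint (Jop k b m U) F)‖ ≤ ‖F‖) ∧
    (∀ x, Dg b m (ee b m) (Jop k b m U x) = Jop k b m U x) ∧
    (∀ x, Dg b m (sw k b m) (Jop k b m U x) = 0)

/-- J2: compression of `U'^n`. -/
def S_J2 : Prop := ∀ (k : ℝ) (b m : ℕ) [NeZero b] [NeZero m], 2 ≤ k → 16 * k ^ 2 ≤ b →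
  ∀ (H : Type) [NormedAddCommGroup H] [InnerProductSpace ℂ H] [CompleteSpace H] (U : H ≃ₗᵢ[ℂ] H),
    ∀ n : ℕ, n ≤ m →
      (∀ x y, ⟪Jop k b m U x, (Ush b m ^ n) (Jop k b m U y)⟫_ℂ
        = ((kap k ((n : ℝ) / m) : ℝ) : ℂ) * ⟪x, (U ^ n) y⟫_ℂ) ∧
      (∀ y, ContinuousLinearMap.adjoint (Jop k b m U) ((Ush b m ^ n) (Jop k b m U y))
        = ((kap k ((n : ℝ) / m) : ℝ) : ℂ) • (U ^ n) y) ∧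
      (∀ y, ContinuousLinearMap.adjoint (Jop k b m U) (((Ush b m ^ n).symm) (Jop k b m U y))
        = ((kap k ((n : ℝ) / m) : ℝ) : ℂ) • ((U ^ n).symm) y)

/-- J3: the norm formula for `D'`, self-adjointness, commutation and bounds. -/
def S_J3 : Prop := ∀ (k : ℝ) (b m : ℕ) [NeZero b] [NeZero m], 2 ≤ k → 16 * k ^ 2 ≤ b →
  ∀ (H : Type) [NormedAddCommGroup H] [InnerProductSpace ℂ H] [CompleteSpace H] (U : H ≃ₗᵢ[ℂ] H)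
    (D : H →L[ℂ] H), LevP k m U D →
    (∀ F, ‖Dop k b m U D F‖ ^ 2 = ‖D (ContinuousLinearMap.adjoint (Jop k b m U) F)‖ ^ 2
      + k * ‖Dg b m (ee b m) F - Jop k b m U (ContinuousLinearMap.adjoint (Jop k b m U) F)‖ ^ 2
      + ‖Dg b m (sw k b m) F‖ ^ 2) ∧
    (∀ F, ‖Dg b m (ee b m) F - Jop k b m U (ContinuousLinearMap.adjoint (Jop k b m U) F)‖ ^ 2
      = ‖Dg b m (ee b m) F‖ ^ 2 - ‖ContinuousLinearMap.adjoint (Jop k b m U) F‖ ^ 2) ∧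
    (∀ x y, ⟪Dop k b m U D x, y⟫_ℂ = ⟪x, Dop k b m U D y⟫_ℂ) ∧
    (∀ x, Dop k b m U D (Jop k b m U x) = Jop k b m U (D x))

/-- J4: norm bounds for `D'` (from J3, J1, Z5). -/
def S_J4 : Prop := ∀ (k : ℝ) (b m : ℕ) [NeZero b] [NeZero m], 2 ≤ k → 16 * k ^ 2 ≤ b →
  ∀ (H : Type) [NormedAddCommGroup H] [InnerProductSpace ℂ H] [CompleteSpace H] (U : H ≃ₗᵢ[ℂ] H)
    (D : H →L[ℂ] H), LevP k m U D →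
    (∀ F, ‖F‖ ≤ ‖Dop k b m U D F‖) ∧ (∀ F, ‖Dop k b m U D F‖ ≤ Real.sqrt k * ‖F‖) ∧
    (∀ F, ‖Dop k b m U D F‖ ^ 2 ≤ ∑ t : ZMod (b * m), ww k b m t * ‖F t‖ ^ 2) ∧
    (∀ G, ContinuousLinearMap.adjoint (Jop k b m U) G = 0 →
      ‖Dop k b m U D G‖ ^ 2 = ∑ t : ZMod (b * m), ww k b m t * ‖G t‖ ^ 2) ∧
    (∀ F, ‖Dop k b m U D F‖ ^ 2 = ‖D (ContinuousLinearMap.adjoint (Jop k b m U) F)‖ ^ 2
      + ‖Dop k b m U D (F - Jop k b m U (ContinuousLinearMap.adjoint (Jop k b m U) F))‖ ^ 2) ∧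
    (∀ n : ℕ, ∀ G, ContinuousLinearMap.adjoint (Jop k b m U) G = 0 →
      ‖Dop k b m U D ((Ush b m ^ n) G)‖ ^ 2 ≤ kh k b m n * ‖Dop k b m U D G‖ ^ 2)

/-- G1: range I. -/
def S_G1 : Prop := ∀ (k : ℝ) (b m : ℕ) [NeZero b] [NeZero m], 2 ≤ k → 16 * k ^ 2 ≤ b →
  ∀ (H : Type) [NormedAddCommGroup H] [InnerProductSpace ℂ H] [CompleteSpace H] (U : H ≃ₗᵢ[ℂ] H)
    (D : H →L[ℂ] H), LevP k m U D → ∀ n : ℕ, m ≤ n → n < b * m →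
    ∀ F, ‖Dop k b m U D ((Ush b m ^ n) F)‖ ^ 2 ≤ 3 * kh k b m n * ‖Dop k b m U D F‖ ^ 2

/-- G2: range II. -/
def S_G2 : Prop := ∀ (k : ℝ) (b m : ℕ) [NeZero b] [NeZero m], 2 ≤ k → 16 * k ^ 2 ≤ b →
  ∀ (H : Type) [NormedAddCommGroup H] [InnerProductSpace ℂ H] [CompleteSpace H] (U : H ≃ₗᵢ[ℂ] H)
    (D : H →L[ℂ] H), LevP k m U D → ∀ n : ℕ, n < m → ∀ c₁ : ℝ, k ^ (-((n : ℝ) / m)) * c₁ ≤ 6 →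
    (∀ x, ‖D ((U ^ n) x)‖ ^ 2 ≤ c₁ * ‖D x‖ ^ 2) →
    ∀ F, ‖Dop k b m U D ((Ush b m ^ n) F)‖ ^ 2 ≤ 11 * ‖Dop k b m U D F‖ ^ 2

/-- G3: range III. -/
def S_G3 : Prop := ∀ (k : ℝ) (b m : ℕ) [NeZero b] [NeZero m], 2 ≤ k → 16 * k ^ 2 ≤ b →
  ∀ (H : Type) [NormedAddCommGroup H] [InnerProductSpace ℂ H] [CompleteSpace H] (U : H ≃ₗᵢ[ℂ] H)
    (D : H →L[ℂ] H), LevP k m U D → ∀ n : ℕ, n < m → ∀ g : ℝ, Real.sqrt 2 ≤ g →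
    (∀ x, ‖D ((U ^ n) x)‖ ≤ g * ‖D x‖) →
    ∀ F, ‖Dop k b m U D ((Ush b m ^ n) F)‖ ≤ (g + k * Real.sqrt (2 * ((n : ℝ) / m))) * ‖Dop k b m U D F‖

/-- G4: blow-up. -/
def S_G4 : Prop := ∀ (k : ℝ) (b m : ℕ) [NeZero b] [NeZero m], 2 ≤ k → 16 * k ^ 2 ≤ b →
  ∀ (H : Type) [NormedAddCommGroup H] [InnerProductSpace ℂ H] [CompleteSpace H] (U : H ≃ₗᵢ[ℂ] H)
    (D : H →L[ℂ] H), LevP k m U D → m = 1 →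
    ∀ x, (k - 1) * ‖x‖ ^ 2 ≤ ‖Dop k b m U D ((Ush b m).symm (Jop k b m U x))‖ ^ 2

/-- STEP: existence of the next level. -/
def S_STEP : Prop := ∀ (k : ℝ) (b m : ℕ), 2 ≤ k → 16 * k ^ 2 ≤ b → 1 ≤ m →
  ∀ (H : Type) [NormedAddCommGroup H] [InnerProductSpace ℂ H] [CompleteSpace H] (U : H ≃ₗᵢ[ℂ] H)
    (D : H →L[ℂ] H), LevP k m U D →
    ∃ (H' : Type) (_ : NormedAddCommGroup H') (_ : InnerProductSpace ℂ H') (_ : CompleteSpace H')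
      (U' : H' ≃ₗᵢ[ℂ] H') (D' : H' →L[ℂ] H') (J : H →ₗᵢ[ℂ] H'), StepP k b m U D U' D' J

/-- TOWER: the sequence of levels. -/
def S_TOWER : Prop := ∀ (k : ℝ) (b : ℕ), 2 ≤ k → 16 * k ^ 2 ≤ b →
  ∃ (H : ℕ → Type) (_ : ∀ l, NormedAddCommGroup (H l)) (_ : ∀ l, InnerProductSpace ℂ (H l))
    (_ : ∀ l, CompleteSpace (H l)) (U : ∀ l, H l ≃ₗᵢ[ℂ] H l) (D : ∀ l, H l →L[ℂ] H l)
    (J : ∀ l, H l →ₗᵢ[ℂ] H (l + 1)),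
    (∀ l, LevP k (b ^ l) (U l) (D l)) ∧
    (∀ l, StepP k b (b ^ l) (U l) (D l) (U (l + 1)) (D (l + 1)) (J l)) ∧
    (∀ x, ‖D 0 x‖ = ‖x‖) ∧ ∃ x : H 0, x ≠ 0

/-- EST: uniform power bound on all levels. -/
def S_EST : Prop := ∀ (k : ℝ) (b : ℕ), 2 ≤ k → 16 * k ^ 2 ≤ b →
  ∀ (H : ℕ → Type) [∀ l, NormedAddCommGroup (H l)] [∀ l, InnerProductSpace ℂ (H l)]
    [∀ l, CompleteSpace (H l)] (U : ∀ l, H l ≃ₗᵢ[ℂ] H l) (D : ∀ l, H l →L[ℂ] H l)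
    (J : ∀ l, H l →ₗᵢ[ℂ] H (l + 1)),
    (∀ l, LevP k (b ^ l) (U l) (D l)) →
    (∀ l, StepP k b (b ^ l) (U l) (D l) (U (l + 1)) (D (l + 1)) (J l)) →
    ∀ (l n : ℕ), n < b ^ l → ∀ (x : H (l + 1)), ‖D (l + 1) ((U (l + 1) ^ n) x)‖ ≤ 5 * ‖D (l + 1) x‖

/-! ## C. limits -/

/-- L1: Hilbert direct limit. -/
def S_L1 : Prop := ∀ (H : ℕ → Type) [∀ l, NormedAddCommGroup (H l)] [∀ l, InnerProductSpace ℂ (H l)]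
    [∀ l, CompleteSpace (H l)] (J : ∀ l, H l →ₗᵢ[ℂ] H (l + 1)),
    ∃ (E : Type) (_ : NormedAddCommGroup E) (_ : InnerProductSpace ℂ E) (_ : CompleteSpace E)
      (i : ∀ l, H l →ₗᵢ[ℂ] E),
      (∀ l x, i (l + 1) (J l x) = i l x) ∧ Dense (⋃ l, Set.range (i l))

/-- L2: strong limits of uniformly bounded operators. -/
def S_L2 : Prop := ∀ (E : Type) [NormedAddCommGroup E] [InnerProductSpace ℂ E] [CompleteSpace E]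
    (A : ℕ → E →L[ℂ] E) (K : ℝ) (S : Set E), Dense S → (∀ n x, ‖A n x‖ ≤ K * ‖x‖) →
    (∀ x ∈ S, ∃ y, Tendsto (fun n => A n x) atTop (𝓝 y)) →
    ∃ B : E →L[ℂ] E, (∀ x, Tendsto (fun n => A n x) atTop (𝓝 (B x))) ∧ ∀ x, ‖B x‖ ≤ K * ‖x‖

/-- L3: the projections `ι_m ι_m†` converge strongly to `1`, and basic calculus of the direct limit. -/
def S_L3 : Prop := ∀ (H : ℕ → Type) [∀ l, NormedAddCommGroup (H l)] [∀ l, InnerProductSpace ℂ (H l)]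
    [∀ l, CompleteSpace (H l)] (J : ∀ l, H l →ₗᵢ[ℂ] H (l + 1))
    (E : Type) [NormedAddCommGroup E] [InnerProductSpace ℂ E] [CompleteSpace E]
    (i : ∀ l, H l →ₗᵢ[ℂ] E), (∀ l x, i (l + 1) (J l x) = i l x) → Dense (⋃ l, Set.range (i l)) →
    (∀ l x, ContinuousLinearMap.adjoint (i l).toContinuousLinearMap (i l x) = x) ∧
    (∀ l m x, l ≤ m → i m (ContinuousLinearMap.adjoint (i m).toContinuousLinearMap (i l x)) = i l x) ∧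
    (∀ l m x, l ≤ m → ContinuousLinearMap.adjoint (i (m + 1)).toContinuousLinearMap (i l x)
      = J m (ContinuousLinearMap.adjoint (i m).toContinuousLinearMap (i l x))) ∧
    (∀ v, Tendsto (fun m => i m (ContinuousLinearMap.adjoint (i m).toContinuousLinearMap v)) atTop (𝓝 v)) ∧
    (∀ l v, ‖ContinuousLinearMap.adjoint (i l).toContinuousLinearMap v‖ ≤ ‖v‖)

/-- L4: the limit unitary. -/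
def S_L4 : Prop := ∀ (H : ℕ → Type) [∀ l, NormedAddCommGroup (H l)] [∀ l, InnerProductSpace ℂ (H l)]
    [∀ l, CompleteSpace (H l)] (J : ∀ l, H l →ₗᵢ[ℂ] H (l + 1))
    (E : Type) [NormedAddCommGroup E] [InnerProductSpace ℂ E] [CompleteSpace E]
    (i : ∀ l, H l →ₗᵢ[ℂ] E), (∀ l x, i (l + 1) (J l x) = i l x) → Dense (⋃ l, Set.range (i l)) →
    ∀ (U : ∀ l, H l ≃ₗᵢ[ℂ] H l) (e : ℕ → ℝ), Summable e →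
      (∀ l x, ‖U (l + 1) (J l x) - J l (U l x)‖ ≤ e l * ‖x‖) →
      ∃ UE : E ≃ₗᵢ[ℂ] E,
        (∀ (n : ℕ) v, Tendsto (fun m => i m ((U m ^ n)
          (ContinuousLinearMap.adjoint (i m).toContinuousLinearMap v))) atTop (𝓝 ((UE ^ n) v))) ∧
        (∀ v, Tendsto (fun m => i m ((U m).symm
          (ContinuousLinearMap.adjoint (i m).toContinuousLinearMap v))) atTop (𝓝 (UE.symm v)))

/-- L5: the limit of the weight operators. -/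
def S_L5 : Prop := ∀ (H : ℕ → Type) [∀ l, NormedAddCommGroup (H l)] [∀ l, InnerProductSpace ℂ (H l)]
    [∀ l, CompleteSpace (H l)] (J : ∀ l, H l →ₗᵢ[ℂ] H (l + 1))
    (E : Type) [NormedAddCommGroup E] [InnerProductSpace ℂ E] [CompleteSpace E]
    (i : ∀ l, H l →ₗᵢ[ℂ] E), (∀ l x, i (l + 1) (J l x) = i l x) → Dense (⋃ l, Set.range (i l)) →
    ∀ (D : ∀ l, H l →L[ℂ] H l) (K : ℝ), (∀ l x y, ⟪D l x, y⟫_ℂ = ⟪x, D l y⟫_ℂ) →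
      (∀ l x, ‖x‖ ≤ ‖D l x‖) → (∀ l x, ‖D l x‖ ≤ K * ‖x‖) → (∀ l x, D (l + 1) (J l x) = J l (D l x)) →
      ∃ DE : E ≃L[ℂ] E, (∀ l x, DE (i l x) = i l (D l x)) ∧ (∀ x y, ⟪DE x, y⟫_ℂ = ⟪x, DE y⟫_ℂ) ∧
        (∀ v, ‖v‖ ≤ ‖DE v‖)

/-- a level system: tower together with a limit -/
structure SysP (k : ℝ) (b : ℕ) {H : ℕ → Type} [∀ l, NormedAddCommGroup (H l)]
    [∀ l, InnerProductSpace ℂ (H l)] [∀ l, CompleteSpace (H l)] (U : ∀ l, H l ≃ₗᵢ[ℂ] H l)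
    (D : ∀ l, H l →L[ℂ] H l) (J : ∀ l, H l →ₗᵢ[ℂ] H (l + 1)) {E : Type} [NormedAddCommGroup E]
    [InnerProductSpace ℂ E] [CompleteSpace E] (i : ∀ l, H l →ₗᵢ[ℂ] E) (UE : E ≃ₗᵢ[ℂ] E)
    (DE : E ≃L[ℂ] E) : Prop where
  hk : 2 ≤ k
  hb : 16 * k ^ 2 ≤ b
  lev : ∀ l, LevP k (b ^ l) (U l) (D l)
  step : ∀ l, StepP k b (b ^ l) (U l) (D l) (U (l + 1)) (D (l + 1)) (J l)
  d0 : ∀ x, ‖D 0 x‖ = ‖x‖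
  nz : ∃ x : H 0, x ≠ 0
  iJ : ∀ l x, i (l + 1) (J l x) = i l x
  dense : Dense (⋃ l, Set.range (i l))
  ul : ∀ (n : ℕ) v, Tendsto (fun m => i m ((U m ^ n)
          (ContinuousLinearMap.adjoint (i m).toContinuousLinearMap v))) atTop (𝓝 ((UE ^ n) v))
  us : ∀ v, Tendsto (fun m => i m ((U m).symm
          (ContinuousLinearMap.adjoint (i m).toContinuousLinearMap v))) atTop (𝓝 (UE.symm v))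
  di : ∀ l x, DE (i l x) = i l (D l x)
  dsa : ∀ x y, ⟪DE x, y⟫_ℂ = ⟪x, DE y⟫_ℂ
  dlo : ∀ v, ‖v‖ ≤ ‖DE v‖

/-- SYS: existence of a system. -/
def S_SYS : Prop := ∀ (k : ℝ) (b : ℕ), 2 ≤ k → 16 * k ^ 2 ≤ b →
  ∃ (H : ℕ → Type) (_ : ∀ l, NormedAddCommGroup (H l)) (_ : ∀ l, InnerProductSpace ℂ (H l))
    (_ : ∀ l, CompleteSpace (H l)) (U : ∀ l, H l ≃ₗᵢ[ℂ] H l) (D : ∀ l, H l →L[ℂ] H l)
    (J : ∀ l, H l →ₗᵢ[ℂ] H (l + 1)) (E : Type) (_ : NormedAddCommGroup E)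
    (_ : InnerProductSpace ℂ E) (_ : CompleteSpace E) (i : ∀ l, H l →ₗᵢ[ℂ] E) (UE : E ≃ₗᵢ[ℂ] E)
    (DE : E ≃L[ℂ] E), SysP k b U D J i UE DE

/-- Y1: compression in the limit. -/
def S_Y1 : Prop := ∀ (k : ℝ) (b : ℕ) (H : ℕ → Type) [∀ l, NormedAddCommGroup (H l)]
    [∀ l, InnerProductSpace ℂ (H l)] [∀ l, CompleteSpace (H l)] (U : ∀ l, H l ≃ₗᵢ[ℂ] H l)
    (D : ∀ l, H l →L[ℂ] H l) (J : ∀ l, H l →ₗᵢ[ℂ] H (l + 1)) (E : Type) [NormedAddCommGroup E]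
    [InnerProductSpace ℂ E] [CompleteSpace E] (i : ∀ l, H l →ₗᵢ[ℂ] E) (UE : E ≃ₗᵢ[ℂ] E)
    (DE : E ≃L[ℂ] E), SysP k b U D J i UE DE →
    ∀ (l n : ℕ), n ≤ b ^ l →
      (∀ x y : H l, Tendsto (fun S : ℕ => ((∏ s ∈ Finset.range S, kap k ((n : ℝ) / ((b ^ (l + s) : ℕ) : ℝ)) : ℝ) : ℂ)
        * ⟪x, (U l ^ n) y⟫_ℂ) atTop (𝓝 ⟪i l x, (UE ^ n) (i l y)⟫_ℂ))

/-- Y2: power bound in the limit. -/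
def S_Y2 : Prop := ∀ (k : ℝ) (b : ℕ) (H : ℕ → Type) [∀ l, NormedAddCommGroup (H l)]
    [∀ l, InnerProductSpace ℂ (H l)] [∀ l, CompleteSpace (H l)] (U : ∀ l, H l ≃ₗᵢ[ℂ] H l)
    (D : ∀ l, H l →L[ℂ] H l) (J : ∀ l, H l →ₗᵢ[ℂ] H (l + 1)) (E : Type) [NormedAddCommGroup E]
    [InnerProductSpace ℂ E] [CompleteSpace E] (i : ∀ l, H l →ₗᵢ[ℂ] E) (UE : E ≃ₗᵢ[ℂ] E)
    (DE : E ≃L[ℂ] E), SysP k b U D J i UE DE → ∀ (n : ℕ) v, ‖DE ((UE ^ n) v)‖ ≤ 5 * ‖DE v‖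

/-- Y3: blow-up in the limit. -/
def S_Y3 : Prop := ∀ (k : ℝ) (b : ℕ) (H : ℕ → Type) [∀ l, NormedAddCommGroup (H l)]
    [∀ l, InnerProductSpace ℂ (H l)] [∀ l, CompleteSpace (H l)] (U : ∀ l, H l ≃ₗᵢ[ℂ] H l)
    (D : ∀ l, H l →L[ℂ] H l) (J : ∀ l, H l →ₗᵢ[ℂ] H (l + 1)) (E : Type) [NormedAddCommGroup E]
    [InnerProductSpace ℂ E] [CompleteSpace E] (i : ∀ l, H l →ₗᵢ[ℂ] E) (UE : E ≃ₗᵢ[ℂ] E)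
    (DE : E ≃L[ℂ] E), SysP k b U D J i UE DE →
    ∃ x : E, x ≠ 0 ∧ 1 / 2 * Real.sqrt (k - 1) * ‖DE x‖ ≤ ‖DE (UE.symm x)‖

/-- Y4: no weakly mixing vector in the limit. -/
def S_Y4 : Prop := ∀ (k : ℝ) (b : ℕ) (H : ℕ → Type) [∀ l, NormedAddCommGroup (H l)]
    [∀ l, InnerProductSpace ℂ (H l)] [∀ l, CompleteSpace (H l)] (U : ∀ l, H l ≃ₗᵢ[ℂ] H l)
    (D : ∀ l, H l →L[ℂ] H l) (J : ∀ l, H l →ₗᵢ[ℂ] H (l + 1)) (E : Type) [NormedAddCommGroup E]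
    [InnerProductSpace ℂ E] [CompleteSpace E] (i : ∀ l, H l →ₗᵢ[ℂ] E) (UE : E ≃ₗᵢ[ℂ] E)
    (DE : E ≃L[ℂ] E), SysP k b U D J i UE DE →
    ∀ v, (∀ w, Tendsto (fun n : ℕ => ⟪w, (UE ^ n) v⟫_ℂ) atTop (𝓝 0)) → v = 0

/-- CORE -/
def S_CORE : Prop := ∀ N : ℝ, ∃ (H : Type) (_ : NormedAddCommGroup H)
  (_ : InnerProductSpace ℂ H) (_ : CompleteSpace H) (U : H ≃ₗᵢ[ℂ] H) (D : H ≃L[ℂ] H),
  (∀ x, ‖x‖ ≤ ‖D x‖) ∧ (∀ (n : ℕ) x, ‖D ((U ^ n) x)‖ ≤ 5 * ‖D x‖) ∧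
  (∃ x, N * ‖D x‖ < ‖D (U.symm x)‖) ∧
  (∀ v, (∀ w, Tendsto (fun n : ℕ => ⟪w, (U ^ n) v⟫_ℂ) atTop (𝓝 0)) → v = 0)

/-! ## D. the final construction -/

/-- `L` is a Banach limit -/
structure BL (L : (ℕ →ᵇ ℝ) →L[ℝ] ℝ) : Prop where
  pos : ∀ f : ℕ →ᵇ ℝ, (∀ n, 0 ≤ f n) → 0 ≤ L f
  one : L (BoundedContinuousFunction.const ℕ (1 : ℝ)) = 1
  sh : ∀ f g : ℕ →ᵇ ℝ, (∀ n, g n = f (n + 1)) → L g = L f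

/-- F1: a Banach limit exists. -/
def S_F1 : Prop := ∃ L : (ℕ →ᵇ ℝ) →L[ℝ] ℝ, BL L

/-- F2: the asymptote of one block. -/
def S_F2 : Prop := ∀ L : (ℕ →ᵇ ℝ) →L[ℝ] ℝ, BL L →
  ∀ (H : Type) [NormedAddCommGroup H] [InnerProductSpace ℂ H] [CompleteSpace H] (U : H ≃ₗᵢ[ℂ] H)
    (D : H ≃L[ℂ] H), (∀ x, ‖x‖ ≤ ‖D x‖) → (∀ (n : ℕ) x, ‖D ((U ^ n) x)‖ ≤ 5 * ‖D x‖) →
    ∃ X : H →L[ℂ] H, DenseRange X ∧ (∀ x, X (D (U (D.symm x))) = U (X x)) ∧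
      (∀ (x : H) (f : ℕ →ᵇ ℝ), (∀ n, f n = ‖D ((U ^ n) (D.symm x))‖ ^ 2) → ‖X x‖ ^ 2 = L f)

/-- F2a: the form: a positive operator `B` with `⟪B x, x⟫ = L(‖D Uⁿ x‖²)`. -/
def S_F2a : Prop := ∀ L : (ℕ →ᵇ ℝ) →L[ℝ] ℝ, BL L →
  ∀ (H : Type) [NormedAddCommGroup H] [InnerProductSpace ℂ H] [CompleteSpace H] (U : H ≃ₗᵢ[ℂ] H)
    (D : H ≃L[ℂ] H), (∀ x, ‖x‖ ≤ ‖D x‖) → (∀ (n : ℕ) x, ‖D ((U ^ n) x)‖ ≤ 5 * ‖D x‖) →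
    ∃ B : H →L[ℂ] H, B.IsPositive ∧ (∀ x, ‖x‖ ^ 2 ≤ (⟪B x, x⟫_ℂ).re) ∧ (∀ x, B (U x) = U (B x)) ∧
      (∀ (x : H) (f : ℕ →ᵇ ℝ), (∀ n, f n = ‖D ((U ^ n) x)‖ ^ 2) → (⟪B x, x⟫_ℂ).re = L f)

/-- F2b: square roots. -/
def S_F2b : Prop := ∀ (H : Type) [NormedAddCommGroup H] [InnerProductSpace ℂ H] [CompleteSpace H]
    (U : H ≃ₗᵢ[ℂ] H) (B : H →L[ℂ] H), B.IsPositive → (∀ x, ‖x‖ ^ 2 ≤ (⟪B x, x⟫_ℂ).re) →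
    (∀ x, B (U x) = U (B x)) →
    ∃ R : H →L[ℂ] H, DenseRange R ∧ (∀ x, R (U x) = U (R x)) ∧ ∀ x, ‖R x‖ ^ 2 = (⟪B x, x⟫_ℂ).re

/-- F3a: Banach limits and sums. -/
def S_F3a : Prop := ∀ L : (ℕ →ᵇ ℝ) →L[ℝ] ℝ, BL L → ∀ (f : ℕ → ℕ →ᵇ ℝ) (g : ℕ →ᵇ ℝ) (c : ℕ → ℝ),
  Summable c → (∀ N n, |f N n| ≤ c N) → (∀ n, HasSum (fun N => f N n) (g n)) →
  HasSum (fun N => L (f N)) (L g)

/-- F4: singularity from the absence of weakly mixing vectors. -/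
def S_F4 : Prop := ∀ (K : Type) [NormedAddCommGroup K] [InnerProductSpace ℂ K] [CompleteSpace K]
    (W : K →L[ℂ] K), W ∈ unitary (K →L[ℂ] K) →
    (∀ v, (∀ w, Tendsto (fun n : ℕ => ⟪w, (W ^ n) v⟫_ℂ) atTop (𝓝 0)) → v = 0) →
    ∀ (y : K) (μ : Measure ℂ), IsFiniteMeasure μ → μ (Metric.sphere (0 : ℂ) 1)ᶜ = 0 →
      (∀ n : ℕ, ∫ z, z ^ n ∂μ = ⟪y, (W ^ n) y⟫_ℂ) →
      μ ⟂ₘ Measure.map (fun t : ℝ => Complex.exp ((t : ℂ) * Complex.I))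
        (volume.restrict (Set.Ioc 0 (2 * Real.pi)))

/-- F4a: Riemann–Lebesgue on the circle. -/
def S_F4a : Prop := ∀ g : ℂ → ℂ,
  Integrable g (Measure.map (fun t : ℝ => Complex.exp ((t : ℂ) * Complex.I))
        (volume.restrict (Set.Ioc 0 (2 * Real.pi)))) →
  Tendsto (fun n : ℕ => ∫ z, z ^ n * g z ∂(Measure.map (fun t : ℝ => Complex.exp ((t : ℂ) * Complex.I))
        (volume.restrict (Set.Ioc 0 (2 * Real.pi))))) atTop (𝓝 0)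

/-- F4b: density of trigonometric polynomials in `L²(μ)`, `μ` finite on the circle; here the span
of the functions `z^n`, `z̄^n`. -/
def S_F4b : Prop := ∀ (μ : Measure ℂ) [IsFiniteMeasure μ], μ (Metric.sphere (0 : ℂ) 1)ᶜ = 0 →
  ∀ (s : Set ℂ), MeasurableSet s → ∀ ε : ℝ, 0 < ε →
  ∃ (d : ℕ) (a : ℕ → ℂ), ∫ z, ‖(z ^ d)⁻¹ * (∑ j ∈ Finset.range (2 * d + 1), a j * z ^ j)
      - s.indicator (fun _ => (1 : ℂ)) z‖ ^ 2 ∂μ < ε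

/-- F4c: the spectral isometry: for `W` unitary and `μ` with the moments of `y`, there is an isometry
`V : L²(μ) → K` with `V(z^n 1) = W^n y`, intertwining multiplication by `z`. Stated through its
consequence: for a measurable `s` there is `v` with `‖v‖² = μ(s)` and, for all `w`, an `h ∈ L²(μ)`
with `⟪w, W^n v⟫ = ∫ z^n h 1_s dμ`. -/
def S_F4c : Prop := ∀ (K : Type) [NormedAddCommGroup K] [InnerProductSpace ℂ K] [CompleteSpace K]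
    (W : K →L[ℂ] K), W ∈ unitary (K →L[ℂ] K) →
    ∀ (y : K) (μ : Measure ℂ), IsFiniteMeasure μ → μ (Metric.sphere (0 : ℂ) 1)ᶜ = 0 →
      (∀ n : ℕ, ∫ z, z ^ n ∂μ = ⟪y, (W ^ n) y⟫_ℂ) →
      ∀ s : Set ℂ, MeasurableSet s → ∃ v : K, ‖v‖ ^ 2 = (μ s).toReal ∧
        ∀ w : K, ∃ h : ℂ → ℂ, MemLp h 2 μ ∧
          ∀ n : ℕ, ⟪w, (W ^ n) v⟫_ℂ = ∫ z, z ^ n * (h z * s.indicator (fun _ => (1 : ℂ)) z) ∂μ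

/-- the target -/
def S_TARGET : Prop := ¬ (∀ (H : Type) [NormedAddCommGroup H] [InnerProductSpace ℂ H] [CompleteSpace H]
    (T : H →L[ℂ] H),
    (∃ C : ℝ, ∀ n : ℕ, ‖T ^ n‖ ≤ C) →
    (∀ x : H, x ≠ 0 → ¬ Tendsto (fun n : ℕ => (T ^ n) x) atTop (𝓝 0)) →
    (∀ x : H, x ≠ 0 →
      ¬ Tendsto (fun n : ℕ => (ContinuousLinearMap.adjoint T ^ n) x) atTop (𝓝 0)) →
    ∀ L : (ℕ →ᵇ ℝ) →L[ℝ] ℝ,
    (∀ f : ℕ →ᵇ ℝ, (∀ n, 0 ≤ f n) → 0 ≤ L f) →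
    L (BoundedContinuousFunction.const ℕ (1 : ℝ)) = 1 →
    (∀ f g : ℕ →ᵇ ℝ, (∀ n, g n = f (n + 1)) → L g = L f) →
    ∀ (K : Type) [NormedAddCommGroup K] [InnerProductSpace ℂ K] [CompleteSpace K]
      (W : K →L[ℂ] K) (X : H →L[ℂ] K),
      W ∈ unitary (K →L[ℂ] K) → DenseRange X → X.comp T = W.comp X →
      (∀ (x : H) (f : ℕ →ᵇ ℝ), (∀ n, f n = ‖(T ^ n) x‖ ^ 2) → ‖X x‖ ^ 2 = L f) →
      (∀ (y : K) (μ : Measure ℂ), IsFiniteMeasure μ →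
        μ (Metric.sphere (0 : ℂ) 1)ᶜ = 0 →
        (∀ n : ℕ, ∫ z, z ^ n ∂μ = ⟪y, (W ^ n) y⟫_ℂ) →
        μ ⟂ₘ Measure.map (fun t : ℝ => Complex.exp ((t : ℂ) * Complex.I))
          (volume.restrict (Set.Ioc 0 (2 * Real.pi)))) →
      ∃ S : H ≃L[ℂ] K, ∀ v : H, S (T v) = W (S v))

/-- Fa: the operator `T = ⊕ D_N U_N D_N⁻¹`, power bounded and `C₁₁`. -/
def S_Fa : Prop := ∀ (H : ℕ → Type) [∀ N, NormedAddCommGroup (H N)] [∀ N, InnerProductSpace ℂ (H N)]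
    [∀ N, CompleteSpace (H N)] (U : ∀ N, H N ≃ₗᵢ[ℂ] H N) (D : ∀ N, H N ≃L[ℂ] H N),
    (∀ N x, ‖x‖ ≤ ‖D N x‖) → (∀ N (n : ℕ) x, ‖D N ((U N ^ n) x)‖ ≤ 5 * ‖D N x‖) →
    ∃ T : lp H 2 →L[ℂ] lp H 2, (∀ x N, (T x : ∀ N, H N) N = D N (U N ((D N).symm ((x : ∀ N, H N) N)))) ∧
      (∀ n : ℕ, ‖T ^ n‖ ≤ 5) ∧
      (∀ x : lp H 2, x ≠ 0 → ¬ Tendsto (fun n : ℕ => (T ^ n) x) atTop (𝓝 0)) ∧
      (∀ x : lp H 2, x ≠ 0 →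
        ¬ Tendsto (fun n : ℕ => (ContinuousLinearMap.adjoint T ^ n) x) atTop (𝓝 0))

/-- Fb: the unitary `W = ⊕ U_N` has no weakly mixing vectors. -/
def S_Fb : Prop := ∀ (H : ℕ → Type) [∀ N, NormedAddCommGroup (H N)] [∀ N, InnerProductSpace ℂ (H N)]
    [∀ N, CompleteSpace (H N)] (U : ∀ N, H N ≃ₗᵢ[ℂ] H N),
    (∀ N v, (∀ w, Tendsto (fun n : ℕ => ⟪w, (U N ^ n) v⟫_ℂ) atTop (𝓝 0)) → v = 0) →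
    ∃ W : lp H 2 →L[ℂ] lp H 2, (∀ x N, (W x : ∀ N, H N) N = U N ((x : ∀ N, H N) N)) ∧
      W ∈ unitary (lp H 2 →L[ℂ] lp H 2) ∧
      (∀ v, (∀ w, Tendsto (fun n : ℕ => ⟪w, (W ^ n) v⟫_ℂ) atTop (𝓝 0)) → v = 0)

/-- Fc: the intertwining operator `X = ⊕ X_N`. -/
def S_Fc : Prop := ∀ L : (ℕ →ᵇ ℝ) →L[ℝ] ℝ, BL L →
    ∀ (H : ℕ → Type) [∀ N, NormedAddCommGroup (H N)] [∀ N, InnerProductSpace ℂ (H N)]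
    [∀ N, CompleteSpace (H N)] (U : ∀ N, H N ≃ₗᵢ[ℂ] H N) (D : ∀ N, H N ≃L[ℂ] H N)
    (X : ∀ N, H N →L[ℂ] H N),
    (∀ N x, ‖x‖ ≤ ‖D N x‖) → (∀ N (n : ℕ) x, ‖D N ((U N ^ n) x)‖ ≤ 5 * ‖D N x‖) →
    (∀ N, DenseRange (X N)) →
    (∀ N (x : H N) (f : ℕ →ᵇ ℝ), (∀ n, f n = ‖D N ((U N ^ n) ((D N).symm x))‖ ^ 2) → ‖X N x‖ ^ 2 = L f) →
    ∀ T : lp H 2 →L[ℂ] lp H 2, (∀ x N, (T x : ∀ N, H N) N = D N (U N ((D N).symm ((x : ∀ N, H N) N)))) →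
    ∃ Y : lp H 2 →L[ℂ] lp H 2, (∀ x N, (Y x : ∀ N, H N) N = X N ((x : ∀ N, H N) N)) ∧ DenseRange Y ∧
      (∀ (x : lp H 2) (f : ℕ →ᵇ ℝ), (∀ n, f n = ‖(T ^ n) x‖ ^ 2) → ‖Y x‖ ^ 2 = L f)

/-- Fd: `T` is not similar to a unitary. -/
def S_Fd : Prop := ∀ (H : ℕ → Type) [∀ N, NormedAddCommGroup (H N)] [∀ N, InnerProductSpace ℂ (H N)]
    [∀ N, CompleteSpace (H N)] (U : ∀ N, H N ≃ₗᵢ[ℂ] H N) (D : ∀ N, H N ≃L[ℂ] H N),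
    (∀ N : ℕ, ∃ x : H N, (N : ℝ) * ‖D N x‖ < ‖D N ((U N).symm x)‖) →
    ∀ T W : lp H 2 →L[ℂ] lp H 2, (∀ x N, (T x : ∀ N, H N) N = D N (U N ((D N).symm ((x : ∀ N, H N) N)))) →
    W ∈ unitary (lp H 2 →L[ℂ] lp H 2) → ¬ ∃ S : lp H 2 ≃L[ℂ] lp H 2, ∀ v, S (T v) = W (S v)

/-- FIN: final assembly. -/
def S_FIN : Prop := S_CORE → S_F1 → S_F2 → S_F4 → S_Fa → S_Fb → S_Fc → S_Fd → S_TARGET

end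

end Pool.Agent.W763.PB
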